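import Pool.Agent.H34.STH.Fin2
import Pool.Agent.H21.ST.Nth

/-!
# [H34 STH BOARD] The board of `200 K` intervals

Two groups at the distance `(x 1 + e / 2) u 1`, each of them two groups of `50 K` intervals at the distance
`(x 0 + e / 2) u 0`.  If more than `52 K - 2` of the intervals contain a prime, both groups of one of the pairs contain `K`
primes.
-/

set_option autoImplicit false

namespace Pool.Agent.H34.STH

open Filter Finset Pool.Agent.H82.LS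

/-- two groups of primes and nothing else -/
theorem pat_of {K L s Q w0 w1 N : ℕ} {x z e A W v : ℝ} (hK : 1 ≤ K) (hA : 0 ≤ A) (hW : 0 ≤ W) (hWv : W < v)
    (h1 : |v - x * z| + W < e * z)
    (hin : ∀ p : ℕ, p.Prime → N + A ≤ p → (p : ℝ) ≤ N + A + v + W →
      ((p : ℝ) ≤ N + A + W ∧ p ≡ s [MOD L] ∧ p ≡ w0 [MOD Q]) ∨
      (N + A + v ≤ p ∧ p ≡ s [MOD L] ∧ p ≡ w1 [MOD Q]))
    (S0 S1 : Finset ℕ) (hS0 : K ≤ S0.card) (hS1 : K ≤ S1.card)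
    (hS0' : ∀ p ∈ S0, p.Prime ∧ N + A ≤ p ∧ (p : ℝ) ≤ N + A + W)
    (hS1' : ∀ p ∈ S1, p.Prime ∧ N + A + v ≤ p ∧ (p : ℝ) ≤ N + A + v + W) :
    ∃ n : ℕ, N + A ≤ Nat.nth Nat.Prime n ∧ (Nat.nth Nat.Prime n : ℝ) ≤ N + A + W ∧
      PatH K L s Q w0 w1 x z e n := by
  have hinf := Nat.infinite_setOfPred_prime
  have hN : (0 : ℝ) ≤ N := Nat.cast_nonneg N
  have h1W : W < e * z := by
    have := abs_nonneg (v - x * z)
    linarith
  obtain ⟨ℓ, hℓ⟩ : ∃ ℓ : ℕ, ℓ = ⌈(N : ℝ) + A⌉₊ := ⟨_, rfl⟩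
  obtain ⟨μ, hμ⟩ : ∃ μ : ℕ, μ = ⌊(N : ℝ) + A + W⌋₊ + 1 := ⟨_, rfl⟩
  obtain ⟨ν, hν⟩ : ∃ ν : ℕ, ν = ⌊(N : ℝ) + A + v + W⌋₊ + 1 := ⟨_, rfl⟩
  have rℓ : ∀ p : ℕ, ℓ ≤ p ↔ (N : ℝ) + A ≤ p := fun p => by rw [hℓ]; exact Nat.ceil_le
  have rμ : ∀ p : ℕ, p < μ ↔ (p : ℝ) ≤ N + A + W := fun p => by
    rw [hμ, Nat.lt_succ_iff]
    exact Nat.le_floor_iff (by linarith)
  have rν : ∀ p : ℕ, p < ν ↔ (p : ℝ) ≤ N + A + v + W := fun p => by
    rw [hν, Nat.lt_succ_iff]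
    exact Nat.le_floor_iff (by linarith)
  have rμ' : ∀ p : ℕ, (N : ℝ) + A + v ≤ p → μ ≤ p := by
    intro p hp
    by_contra hcon
    have := (rμ p).1 (not_le.1 hcon)
    linarith
  have hℓμ : ℓ ≤ μ := by
    obtain ⟨p, hp⟩ := Finset.card_pos.1 (lt_of_lt_of_le (by omega : 0 < K) hS0)
    obtain ⟨-, h2, h3⟩ := hS0' p hp
    exact ((rℓ p).2 h2).trans ((rμ p).2 h3).le
  have hμν : μ ≤ ν := by
    obtain ⟨p, hp⟩ := Finset.card_pos.1 (lt_of_lt_of_le (by omega : 0 < K) hS1)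
    obtain ⟨-, h2, h3⟩ := hS1' p hp
    exact (rμ' p h2).trans ((rν p).2 h3).le
  have c1 : Nat.count Nat.Prime ℓ + K ≤ Nat.count Nat.Prime μ :=
    (Nat.add_le_add_left hS0 _).trans (Pool.Agent.H21.ST.count_add hℓμ S0 fun p hp => by
      obtain ⟨a, b, c⟩ := hS0' p hp
      exact ⟨(rℓ p).2 b, (rμ p).2 c, a⟩)
  have c2 : Nat.count Nat.Prime μ + K ≤ Nat.count Nat.Prime ν :=
    (Nat.add_le_add_left hS1 _).trans (Pool.Agent.H21.ST.count_add hμν S1 fun p hp => by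
      obtain ⟨a, b, c⟩ := hS1' p hp
      exact ⟨rμ' p b, (rν p).2 c, a⟩)
  have hge : ∀ (j m : ℕ), Nat.count Nat.Prime m ≤ j → m ≤ Nat.nth Nat.Prime j := by
    intro j m hj
    by_contra hcon
    push Not at hcon
    have hp : (Nat.nth Nat.Prime j).Prime := Nat.nth_mem_of_infinite hinf j
    have h2 : Nat.count Nat.Prime (Nat.nth Nat.Prime j) < Nat.count Nat.Prime m := Nat.count_strict_mono hp hcon
    rw [Nat.count_nth_of_infinite hinf] at h2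
    omega
  have P1 : ∀ j : ℕ, Nat.count Nat.Prime ℓ ≤ j → j < Nat.count Nat.Prime μ →
      (N + A ≤ Nat.nth Nat.Prime j ∧ (Nat.nth Nat.Prime j : ℝ) ≤ N + A + W) ∧
      Nat.nth Nat.Prime j ≡ s [MOD L] ∧ Nat.nth Nat.Prime j ≡ w0 [MOD Q] := by
    intro j hj1 hj2
    have hp : (Nat.nth Nat.Prime j).Prime := Nat.nth_mem_of_infinite hinf j
    have e1 := (rℓ _).1 (hge j ℓ hj1)
    have e2 := (rμ _).1 (Nat.nth_lt_of_lt_count hj2)
    refine ⟨⟨e1, e2⟩, ?_⟩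
    rcases hin _ hp e1 (by linarith) with h | h
    · exact h.2
    · exfalso
      linarith [h.1]
  have P2 : ∀ j : ℕ, Nat.count Nat.Prime μ ≤ j → j < Nat.count Nat.Prime ν →
      (N + A + v ≤ Nat.nth Nat.Prime j ∧ (Nat.nth Nat.Prime j : ℝ) ≤ N + A + v + W) ∧
      Nat.nth Nat.Prime j ≡ s [MOD L] ∧ Nat.nth Nat.Prime j ≡ w1 [MOD Q] := by
    intro j hj1 hj2
    have hp : (Nat.nth Nat.Prime j).Prime := Nat.nth_mem_of_infinite hinf j
    have e1 := hge j μ hj1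
    have e2 := (rν _).1 (Nat.nth_lt_of_lt_count hj2)
    have e3 : (N : ℝ) + A ≤ Nat.nth Nat.Prime j := (rℓ _).1 (hℓμ.trans e1)
    rcases hin _ hp e3 e2 with h | h
    · exfalso
      have := (rμ _).2 h.1
      omega
    · exact ⟨⟨h.1, e2⟩, h.2⟩
  obtain ⟨n, hn⟩ : ∃ n : ℕ, n + 1 = Nat.count Nat.Prime μ := ⟨Nat.count Nat.Prime μ - 1, by omega⟩
  have q0 := (P1 n (by omega) (by omega)).1
  have q1 := (P2 (n + 1) (by omega) (by omega)).1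
  refine ⟨n, q0.1, q0.2, ?_, by omega, fun j hj => ?_⟩
  · have hlt : Nat.nth Nat.Prime n < Nat.nth Nat.Prime (n + 1) := (Nat.nth_lt_nth hinf).2 (by omega)
    have hg : (gap n : ℝ) = (Nat.nth Nat.Prime (n + 1) : ℝ) - Nat.nth Nat.Prime n := by
      unfold gap
      rw [Nat.cast_sub hlt.le]
    have h2 := abs_le.1 (le_refl |v - x * z|)
    rw [hg, abs_lt]
    constructor
    · linarith [q0.1, q0.2, q1.1, q1.2, h2.1, h2.2]
    · linarith [q0.1, q0.2, q1.1, q1.2, h2.1, h2.2]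
  · obtain ⟨b1, b2⟩ := P1 (n - j) (by omega) (by omega)
    obtain ⟨d1, d2⟩ := P2 (n + 1 + j) (by omega) (by omega)
    refine ⟨b2, d2, ?_, ?_⟩
    · linarith [b1.1, q0.2]
    · linarith [d1.2, q1.1]

/-- one prime from every interval -/
theorem primes_of_hits {m N : ℕ} {al be : Fin m → ℝ} {H : ℝ} (hH : 0 < H)
    (hdisj : ∀ d d', d ≠ d' → be d < al d' ∨ be d' < al d) (D : Finset (Fin m))
    (hD : ∀ d ∈ D, ∃ y : ℕ, al d * H ≤ (y : ℝ) ∧ (y : ℝ) ≤ be d * H ∧ (N + y).Prime) :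
    ∃ S : Finset ℕ, S.card = D.card ∧ ∀ p ∈ S, p.Prime ∧ ∃ d ∈ D, N + al d * H ≤ p ∧ (p : ℝ) ≤ N + be d * H := by
  classical
  choose! g hg using hD
  refine ⟨D.image (fun d => N + g d), Finset.card_image_of_injOn ?_, ?_⟩
  · intro d hd d' hd' heq
    have h1 := hg d hd
    have h2 := hg d' hd'
    have h3 : g d = g d' := by
      have : N + g d = N + g d' := heq
      omega
    rw [← h3] at h2
    by_contra hne
    rcases hdisj d d' hne with h4 | h4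
    · have h5 := mul_lt_mul_of_pos_right h4 hH
      linarith [h1.2.1, h2.1]
    · have h5 := mul_lt_mul_of_pos_right h4 hH
      linarith [h1.1, h2.2.1]
  · intro p hp
    obtain ⟨d, hd, rfl⟩ := Finset.mem_image.1 hp
    obtain ⟨h1, h2, h3⟩ := hg d hd
    refine ⟨h3, d, hd, ?_, ?_⟩
    · push_cast
      linarith
    · push_cast
      linarith

/-- the classes -/
theorem exists_r {L s : ℕ} (hs : Nat.Coprime s L) {Q : Fin 2 → ℕ} (hQL : ∀ i, Nat.Coprime (Q i) L)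
    (hQQ : ∀ i j, i ≠ j → Nat.Coprime (Q i) (Q j)) (a b : ℕ) (ha : Nat.Coprime a (Q 0)) (hb : Nat.Coprime b (Q 1)) :
    ∃ r : ℕ, Nat.Coprime r (L * (Q 0 * Q 1)) ∧ r ≡ s [MOD L] ∧ r ≡ a [MOD Q 0] ∧ r ≡ b [MOD Q 1] := by
  obtain ⟨c, hc0, hc1⟩ := Nat.chineseRemainder (hQQ 0 1 (by decide)) a b
  have hL : Nat.Coprime L (Q 0 * Q 1) := (Nat.Coprime.mul_right (hQL 0).symm (hQL 1).symm)
  obtain ⟨r, hr0, hr1⟩ := Nat.chineseRemainder hL s c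
  have h0 : r ≡ a [MOD Q 0] := (hr1.of_dvd (Dvd.intro _ rfl)).trans hc0
  have h1 : r ≡ b [MOD Q 1] := (hr1.of_dvd (Dvd.intro_left _ rfl)).trans hc1
  refine ⟨r, ?_, hr0, h0, h1⟩
  refine Nat.Coprime.mul_right ?_ (Nat.Coprime.mul_right ?_ ?_)
  · show Nat.gcd _ _ = 1
    rw [Nat.ModEq.gcd_eq hr0]
    exact hs
  · show Nat.gcd _ _ = 1
    rw [Nat.ModEq.gcd_eq h0]
    exact ha
  · show Nat.gcd _ _ = 1
    rw [Nat.ModEq.gcd_eq h1]
    exact hb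

end Pool.Agent.H34.STH
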