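import Pool.Agent.H34.STH.Hthm
import Pool.Agent.H62.AU.Fin

/-!
# [H34 STH FIN2] One gap between strings of `K` primes, at one of two separated scales

`BoardH K`: the explicit board of `200 K` intervals and its combinatorics; `strs_of`: from the board to the statement, as
H62/AU/Core and Full.
-/

set_option autoImplicit false

namespace Pool.Agent.H34.STH

open Filter Finset Pool.Agent.H82.LS Pool.Agent.H62.VK Pool.Agent.H34.RC Pool.Agent.H62.VW Pool.Agent.H19.AS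
  Pool.Agent.H62.AS Pool.Agent.H62.AU

/-- the gap number `n` is `x z` up to `e z`, the `K` primes up to it are `w0` and the `K` primes after it `w1` -/
def PatH (K L s Q w0 w1 : ℕ) (x z e : ℝ) (n : ℕ) : Prop :=
  |(gap n : ℝ) - x * z| < e * z ∧ K ≤ n + 1 ∧ ∀ j < K,
    (Nat.nth Nat.Prime (n - j) ≡ s [MOD L] ∧ Nat.nth Nat.Prime (n - j) ≡ w0 [MOD Q]) ∧
    (Nat.nth Nat.Prime (n + 1 + j) ≡ s [MOD L] ∧ Nat.nth Nat.Prime (n + 1 + j) ≡ w1 [MOD Q]) ∧
    (Nat.nth Nat.Prime n : ℝ) - Nat.nth Nat.Prime (n - j) < e * z ∧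
    (Nat.nth Nat.Prime (n + 1 + j) : ℝ) - Nat.nth Nat.Prime (n + 1) < e * z

/-- the board -/
def BoardH (K : ℕ) : Prop := ∀ e : ℝ, 0 < e → ∃ c1 C : ℝ, 0 < c1 ∧ c1 ≤ 1 ∧ 1 ≤ C ∧
  ∀ L s : ℕ, 0 < L → Nat.Coprime s L → ∀ Q : Fin 2 → ℕ, (∀ i, 0 < Q i) → (∀ i, Nat.Coprime (Q i) L) →
    (∀ i j, i ≠ j → Nat.Coprime (Q i) (Q j)) →
  ∀ w : Fin 2 → Fin 2 → ℕ, (∀ i j, Nat.Coprime (w i j) (Q i)) → ∀ x : Fin 2 → ℝ, (∀ i, 0 ≤ x i ∧ x i ≤ 1) →
  ∀ u : Fin 2 → ℝ, 0 < u 0 → C * u 0 ≤ u 1 → 16 * u 1 ≤ 1 →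
  ∃ (al be : Fin (200 * K) → ℝ) (r : Fin (200 * K) → ℕ), (∀ d, Nat.Coprime (r d) (L * (Q 0 * Q 1))) ∧
    (∀ d, 0 < al d ∧ al d + c1 * u 0 ≤ be d ∧ be d < 1) ∧ (∀ d d', d ≠ d' → be d < al d' ∨ be d' < al d) ∧
    ∀ (H : ℝ) (N : ℕ), 0 < H → GoodH (L * (Q 0 * Q 1)) r al be (52 * K - 2) H N →
      ∃ (i : Fin 2) (n : ℕ), N ≤ Nat.nth Nat.Prime n ∧ (Nat.nth Nat.Prime n : ℝ) ≤ N + H ∧
        PatH K L s (Q i) (w i 0) (w i 1) (x i) (u i * H) e n

/-- the pattern at a scale close by -/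
theorem pat_scale {K L s Q w0 w1 : ℕ} {x z z' e η : ℝ} {n : ℕ} (he : 0 < e) (hx : 0 ≤ x ∧ x ≤ 1) (hz : 0 < z)
    (hη : η ≤ 1 / 4) (hηe : η ≤ e / 4) (hzz : |z' - z| ≤ η * z)
    (h : PatH K L s Q w0 w1 x z (e / 4) n) : PatH K L s Q w0 w1 x z' e n := by
  obtain ⟨h1, h2, h3⟩ := h
  have hz' := abs_le.1 hzz
  have hz1 : 3 / 4 * z ≤ z' := by nlinarith [hz'.1]
  have hez : e * (3 / 4 * z) ≤ e * z' := mul_le_mul_of_nonneg_left hz1 he.le
  have hez0 : 0 < e * z := mul_pos he hz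
  have hηz : η * z ≤ e / 4 * z := mul_le_mul_of_nonneg_right hηe hz.le
  have hx1 : |x * z' - x * z| ≤ e / 4 * z := by
    rw [← mul_sub, abs_mul, abs_of_nonneg hx.1]
    calc x * |z' - z| ≤ 1 * |z' - z| := mul_le_mul_of_nonneg_right hx.2 (abs_nonneg _)
      _ ≤ e / 4 * z := by rw [one_mul]; exact hzz.trans hηz
  refine ⟨?_, h2, fun j hj => ?_⟩
  · have h4 := abs_lt.1 h1
    have h5 := abs_le.1 hx1
    rw [abs_lt]
    constructor
    · linarith [h4.1, h5.2]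
    · linarith [h4.2, h5.1]
  · obtain ⟨a, b, c, d⟩ := h3 j hj
    exact ⟨a, b, by linarith, by linarith⟩

theorem core2 {K : ℕ} (hK : 1 ≤ K) (hBd : BoardH K) (hT : ThmH) (hWin : WinU) :
    ∃ D : ℕ, ∀ L s : ℕ, 0 < L → Nat.Coprime s L → ∀ Q : Fin 2 → ℕ, (∀ i, 0 < Q i) → (∀ i, Nat.Coprime (Q i) L) →
      (∀ i j, i ≠ j → Nat.Coprime (Q i) (Q j)) →
      ∀ e : ℝ, 0 < e → ∃ C d B : ℝ, 1 ≤ C ∧ 0 < d ∧ ∀ (M : ℕ) (τ : ℝ) (t : Fin 2 → ℝ), ChainU C B D M τ t →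
      ∀ w : Fin 2 → Fin 2 → ℕ, (∀ i j, Nat.Coprime (w i j) (Q i)) → ∀ x : Fin 2 → ℝ, (∀ i, 0 ≤ x i ∧ x i ≤ 1) →
        d * τ ^ D * M ≤ (({n : ℕ | n < M ∧ ∃ i : Fin 2,
          PatH K L s (Q i) (w i 0) (w i 1) (x i) (t i * Real.log (Nat.nth Nat.Prime n)) e n}).ncard : ℝ) := by
  classical
  obtain ⟨D, hTS⟩ := hT (200 * K) (52 * K - 2) (by omega)
  refine ⟨D, ?_⟩
  intro L s hL hs Q hQ hQL hQQ e0 he0
  obtain ⟨Q0, hQ0⟩ : ∃ Q0 : ℕ, Q0 = L * (Q 0 * Q 1) := ⟨_, rfl⟩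
  have hQ0pos : 0 < Q0 := by
    rw [hQ0]
    exact Nat.mul_pos hL (Nat.mul_pos (hQ 0) (hQ 1))
  obtain ⟨lam, δ, θ, T', H0, hlam, hlam1, hδ, hθ, hT', hH0, hxx⟩ := hTS Q0 hQ0pos
  obtain ⟨c1, Cb, hc1, hc11, hCb, hbd⟩ := hBd (e0 / 4) (by positivity)
  -- the error
  obtain ⟨η, hηd⟩ : ∃ η, η = min (1 / 4) (e0 / 4) := ⟨_, rfl⟩
  have hη : 0 < η := by rw [hηd]; positivity
  have hη1 : η ≤ 1 / 4 := hηd ▸ min_le_left _ _
  have hη2 : η ≤ e0 / 4 := hηd ▸ min_le_right _ _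
  have hnear := log_near θ T' 1 η hθ hT' one_pos hη
  obtain ⟨d0, xs, hd0, hxs, hwin⟩ := hWin T' hT'
  have hev := (hxs.eventually hxx).and ((hxs.eventually hnear).and ((hxs.eventually_gt_atTop 1).and hwin))
  obtain ⟨M1, hM1⟩ := eventually_atTop.1 hev
  obtain ⟨C, hCd⟩ : ∃ C : ℝ, C = max 1 (max (16 / lam) Cb) := ⟨_, rfl⟩
  have hC1 : 1 ≤ C := hCd ▸ le_max_left _ _
  have hC2 : 16 / lam ≤ C := hCd ▸ (le_max_left _ _).trans (le_max_right _ _)
  have hC3 : Cb ≤ C := hCd ▸ (le_max_right _ _).trans (le_max_right _ _)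
  obtain ⟨B, hBd⟩ : ∃ B : ℝ, B = max (max 32 (Real.log ((M1 : ℝ) + 1))) (H0 * 2 ^ D / c1) := ⟨_, rfl⟩
  have hB1 : 32 ≤ B := hBd ▸ (le_max_left _ _).trans (le_max_left _ _)
  have hB2 : Real.log ((M1 : ℝ) + 1) ≤ B := hBd ▸ (le_max_right _ _).trans (le_max_left _ _)
  have hB3 : H0 * 2 ^ D ≤ B * c1 := by
    rw [← div_le_iff₀ hc1]
    exact hBd ▸ le_max_right _ _
  refine ⟨C, d0 * (δ * c1 ^ D), B, hC1, by positivity, fun M τ t hch w hw x hx => ?_⟩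
  obtain ⟨hB, ht, hsepC⟩ := hch
  have hτ : 0 < τ := pos_of_scale one_pos ((by linarith : (1 : ℝ) ≤ B).trans hB)
  have htpos : ∀ i, 0 < t i := fun i => hτ.trans_le (ht i).1
  obtain ⟨tl, htl⟩ : ∃ tl, tl = t 1 := ⟨_, rfl⟩
  obtain ⟨htl1, htl2, htl3⟩ := ht 1
  rw [← htl] at htl1 htl2 htl3
  have htl0 : 0 < tl := hτ.trans_le htl1
  have htle1 : tl ≤ 1 := by nlinarith
  have hlM : 0 ≤ Real.log (M : ℝ) := Real.log_natCast_nonneg M
  have hBM : B ≤ Real.log (M : ℝ) := by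
    have h1 : τ * Real.log M ≤ 1 * Real.log M := mul_le_mul_of_nonneg_right (htl1.trans htle1) hlM
    linarith
  have hMM : M1 ≤ M := by
    have h1 : Real.log ((M1 : ℝ) + 1) ≤ Real.log M := hB2.trans hBM
    have hM0 : (0 : ℝ) < M := by
      by_contra hcon
      have h2 : (M : ℝ) = 0 := le_antisymm (not_lt.1 hcon) (Nat.cast_nonneg M)
      rw [h2, Real.log_zero] at hBM
      linarith
    have h2 : (M1 : ℝ) + 1 ≤ M := (Real.log_le_log_iff (by positivity) hM0).1 h1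
    have h3 : ((M1 + 1 : ℕ) : ℝ) ≤ M := by
      push_cast
      exact h2
    have h4 : M1 + 1 ≤ M := by exact_mod_cast h3
    omega
  obtain ⟨hxx, hnear, hxs1, hlx1, hlx2, hwin⟩ := hM1 M hMM
  generalize xs M = X at hxx hnear hxs1 hlx1 hlx2 hwin
  obtain ⟨y, hyd⟩ : ∃ y, y = Real.log X := ⟨_, rfl⟩
  rw [← hyd] at hxx hnear hlx1 hlx2 hwin
  have hy : 0 < y := by linarith
  have hX0 : 0 < X := by linarith
  -- the board
  obtain ⟨H, hHd⟩ : ∃ H, H = 16 * tl * y := ⟨_, rfl⟩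
  have hH : 0 < H := by rw [hHd]; positivity
  obtain ⟨u, hud⟩ : ∃ u : Fin 2 → ℝ, u = fun i => t i / (16 * tl) := ⟨_, rfl⟩
  have hlu : ∀ i, 16 * tl * u i = t i := fun i => by
    rw [hud]
    field_simp
  have huH : ∀ i, u i * H = t i * y := fun i => by
    rw [hHd, ← hlu i]
    ring
  have hu : ∀ i, 0 < u i := fun i => by
    rw [hud]
    exact div_pos (htpos i) (by positivity)
  obtain ⟨g, hgd⟩ : ∃ g, g = c1 * τ / (16 * tl) := ⟨_, rfl⟩
  have hg0 : 0 < g := by rw [hgd]; positivity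
  have hgH : g * H = c1 * τ * y := by
    rw [hgd, hHd]
    field_simp
  have hg1 : g ≤ 1 := by
    rw [hgd, div_le_one (by positivity)]
    nlinarith
  have hg : g ≤ c1 * u 0 := by
    have h1 : c1 * u 0 = c1 * t 0 / (16 * tl) := by
      rw [hud]
      ring
    rw [h1, hgd]
    exact div_le_div_of_nonneg_right (mul_le_mul_of_nonneg_left (ht 0).1 hc1.le) (by positivity)
  have hsep : Cb * u 0 ≤ u 1 := by
    have h1 := hsepC 0 1 (by decide)
    have h2 : 0 < u 0 := hu 0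
    rw [← hlu 0, ← hlu 1] at h1
    have h3 : C * u 0 ≤ u 1 := by
      by_contra hcon
      have h4 := mul_lt_mul_of_pos_left (not_le.1 hcon) (show 0 < 16 * tl by positivity)
      nlinarith
    exact (mul_le_mul_of_nonneg_right hC3 h2.le).trans h3
  have h16 : 16 * u 1 ≤ 1 := by
    rw [hud]
    show 16 * (t 1 / (16 * tl)) ≤ 1
    rw [← htl]
    refine le_of_eq ?_
    field_simp
  obtain ⟨al, be, r, hr, hint, hdisj, hpat⟩ := hbd L s hL hs Q hQ hQL hQQ w hw x hx u (hu 0) hsep h16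
  rw [← hQ0] at hr hpat
  have hcount := hxx r hr al be g H hg0
    (fun d => ⟨(hint d).1, by linarith [(hint d).2.1], (hint d).2.2⟩) hdisj
    (by
      rw [hHd]
      refine mul_le_mul_of_nonneg_right ?_ hy.le
      rw [div_le_iff₀ hlam] at hC2
      nlinarith)
    (by
      rw [hgH]
      have h1 : (1 : ℝ) ≤ 2 ^ D := one_le_pow₀ (by norm_num)
      have h2 : c1 * B ≤ c1 * (τ * y) := by
        refine mul_le_mul_of_nonneg_left (hB.trans ?_) hc1.le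
        exact mul_le_mul_of_nonneg_left hlx1 hτ.le
      nlinarith)
    (by
      rw [hgH]
      obtain ⟨z, hz⟩ : ∃ z, z = tl * Real.log M := ⟨_, rfl⟩
      rw [← hz] at htl3
      have hz1 : 32 ≤ z := by
        have h1 : τ * Real.log M ≤ tl * Real.log M := mul_le_mul_of_nonneg_right htl1 hlM
        linarith
      have hHz : H ≤ z ^ 2 := by
        have h1 : H ≤ 32 * z := by
          rw [hHd, hz]
          have h2 := mul_le_mul_of_nonneg_left hlx2 (show 0 ≤ 16 * tl by positivity)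
          linarith
        nlinarith
      have hlz : 0 ≤ Real.log z := Real.log_nonneg (by linarith)
      have hH1 : 1 ≤ H := by
        have h1 : (1 : ℝ) ≤ 2 ^ D := one_le_pow₀ (by norm_num)
        have h2 : c1 * B ≤ c1 * (τ * y) := by
          refine mul_le_mul_of_nonneg_left (hB.trans ?_) hc1.le
          exact mul_le_mul_of_nonneg_left hlx1 hτ.le
        have h3 : 1 ≤ g * H := by
          rw [hgH]
          nlinarith
        nlinarith
      have h1 : Real.log H ^ D ≤ (2 * Real.log z) ^ D := by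
        refine pow_le_pow_left₀ (Real.log_nonneg hH1) ?_ D
        have h2 := Real.log_le_log hH hHz
        rw [Real.log_pow] at h2
        exact_mod_cast h2
      rw [mul_pow] at h1
      have h2 : H0 * Real.log H ^ D ≤ H0 * 2 ^ D * Real.log z ^ D := by
        have := mul_le_mul_of_nonneg_left h1 (by linarith : 0 ≤ H0)
        linarith
      have h3 : H0 * 2 ^ D * Real.log z ^ D ≤ B * c1 * Real.log z ^ D :=
        mul_le_mul_of_nonneg_right hB3 (pow_nonneg hlz D)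
      have h4 : c1 * (B * Real.log z ^ D) ≤ c1 * (τ * Real.log M) := mul_le_mul_of_nonneg_left htl3 hc1.le
      have h5 : c1 * (τ * Real.log M) ≤ c1 * (τ * y) :=
        mul_le_mul_of_nonneg_left (mul_le_mul_of_nonneg_left hlx1 hτ.le) hc1.le
      linarith)
  have hgHy : g * H / y = c1 * τ := by
    rw [hgH]
    field_simp
  rw [hgHy] at hcount
  have hfin := hwin (fun n => ∃ i : Fin 2,
    PatH K L s (Q i) (w i 0) (w i 1) (x i) (t i * Real.log (Nat.nth Nat.Prime n)) e0 n)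
    (δ * (c1 * τ) ^ D) _ (by positivity) hcount (by
      intro N hN
      rw [mem_filter, mem_range, Nat.lt_succ_iff] at hN
      obtain ⟨h1, h2, h3⟩ := hN
      have hN1 : (N : ℝ) ≤ T' * X := (Nat.le_floor_iff (by positivity)).1 h1
      obtain ⟨i, n, h4, h5, h6⟩ := hpat H N hH h3
      have hHy : H ≤ y := by
        rw [hHd]
        rw [div_le_iff₀ hlam] at hC2
        have h7 : 16 * tl ≤ 1 := by nlinarith
        nlinarith
      have h10 : (N : ℝ) ≤ Nat.nth Nat.Prime n := by exact_mod_cast h4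
      have h11 : (Nat.nth Nat.Prime n : ℝ) ≤ N + y := h5.trans (by linarith)
      refine ⟨hN1, n, ⟨i, ?_⟩, h4, h11⟩
      rw [huH] at h6
      have h13 := hnear (Nat.nth Nat.Prime n) (h2.trans h10) (by linarith)
      have h14 : |t i * Real.log (Nat.nth Nat.Prime n) - t i * y| ≤ η * (t i * y) := by
        rw [← mul_sub, abs_mul, abs_of_pos (htpos i)]
        calc t i * |Real.log (Nat.nth Nat.Prime n) - y| ≤ t i * (η * y) :=
              mul_le_mul_of_nonneg_left h13 (htpos i).le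
          _ = η * (t i * y) := by ring
      exact pat_scale he0 (hx i) (mul_pos (htpos i) hy) hη1 hη2 h14 h6)
  refine le_trans (le_of_eq ?_) hfin
  rw [mul_pow]
  ring

/-- at one of two separated scales all gaps and all classes occur -/
theorem strs_of (K : ℕ) (hK : 1 ≤ K) (hBd : BoardH K) (hT : ThmH) (hWin : WinU) :
    ∃ D : ℕ, ∀ L s : ℕ, 0 < L → Nat.Coprime s L → ∀ Q : Fin 2 → ℕ, (∀ i, 0 < Q i) → (∀ i, Nat.Coprime (Q i) L) →
      (∀ i j, i ≠ j → Nat.Coprime (Q i) (Q j)) →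
      ∀ e : ℝ, 0 < e → ∃ C d B : ℝ, 1 ≤ C ∧ 0 < d ∧ ∀ (M : ℕ) (τ : ℝ) (t : Fin 2 → ℝ), ChainU C B D M τ t →
        ∃ i, ∀ w : Fin 2 → ℕ, (∀ j, Nat.Coprime (w j) (Q i)) → ∀ u : ℝ, 0 ≤ u → u ≤ 1 →
          d * τ ^ D * M ≤ (({n : ℕ | n < M ∧
            PatH K L s (Q i) (w 0) (w 1) u (t i * Real.log (Nat.nth Nat.Prime n)) e n}).ncard : ℝ) := by
  classical
  obtain ⟨D, hD⟩ := core2 hK hBd hT hWin
  refine ⟨D, fun L s hL hs Q hQ hQL hQQ e he => ?_⟩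
  obtain ⟨C, d, B, hC, hd, hU⟩ := hD L s hL hs Q hQ hQL hQQ e he
  refine ⟨C, d / 2, B, hC, by positivity, fun M τ t ht => ?_⟩
  by_contra hcon
  push Not at hcon
  choose w hw x hx0 hx1 hcnt using hcon
  have h1 := hU M τ t ht w hw x (fun i => ⟨hx0 i, hx1 i⟩)
  have h7 := ncard_ex_le M (fun (i : Fin 2) n =>
    PatH K L s (Q i) (w i 0) (w i 1) (x i) (t i * Real.log (Nat.nth Nat.Prime n)) e n)
  rw [Fin.sum_univ_two] at h7
  have h2 := hcnt 0
  have h3 := hcnt 1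
  linarith

end Pool.Agent.H34.STH
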