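import Pool.Agent.H34.STH.Hq

/-!
# [H34 STH HTHM] THEOREM A with classes and many intervals with a prime, uniformly in the intervals

`thmH`: for `50 F < 13 m`, disjoint intervals `[al d * H, be d * H]`, `d < m`, and classes `r d` prime to `Q` there are many
`N` such that every prime of the window `N + [0, H]` lies in one of the intervals, in the class of the interval, and more
than `F` of the intervals contain a prime.  All constants are chosen before the intervals.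
-/

set_option autoImplicit false

namespace Pool.Agent.H34.STH

open Finset Filter Pool.Agent.H82.LS Pool.Agent.H92.MM Pool.Agent.H61.UN Pool.Agent.H96.WP Pool.Agent.H34.RR
open Pool.Agent.H34.RC Pool.Agent.H62.AU

open Classical in
/-- good windows of length `h`: the primes lie in the intervals, in the class `r d` modulo `Q` in the interval `d`, and more
than `F` of the intervals contain a prime -/
def GoodH {m : ℕ} (Q : ℕ) (r : Fin m → ℕ) (al be : Fin m → ℝ) (F : ℕ) (h : ℝ) (N : ℕ) : Prop :=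
  (∀ y : ℕ, (y : ℝ) ≤ h → (N + y).Prime →
    ∃ d, al d * h ≤ (y : ℝ) ∧ (y : ℝ) ≤ be d * h ∧ N + y ≡ r d [MOD Q]) ∧
  F < (univ.filter (fun d : Fin m => ∃ y : ℕ, al d * h ≤ (y : ℝ) ∧ (y : ℝ) ≤ be d * h ∧ (N + y).Prime)).card

open Classical in
/-- THEOREM A with classes, uniformly, more than `F` of the `m` intervals contain a prime when `50 F < 13 m` -/
def ThmH : Prop := ∀ m F : ℕ, 50 * F < 13 * m → ∃ D : ℕ, ∀ Q : ℕ, 0 < Q →
  ∃ lam0 δ θ T H0 : ℝ, 0 < lam0 ∧ lam0 ≤ 1 ∧ 0 < δ ∧ 0 < θ ∧ 1 ≤ T ∧ 1 ≤ H0 ∧ ∀ᶠ x : ℝ in atTop,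
    ∀ r : Fin m → ℕ, (∀ d, Nat.Coprime (r d) Q) →
    ∀ (al be : Fin m → ℝ) (g H : ℝ), 0 < g → (∀ d, 0 < al d ∧ al d + g ≤ be d ∧ be d < 1) →
    (∀ d d', d ≠ d' → be d < al d' ∨ be d' < al d) →
    H ≤ lam0 * Real.log x → H0 ≤ g * H → H0 * Real.log H ^ D ≤ g * H →
      δ * (g * H / Real.log x) ^ D * x ≤ (((range (⌊T * x⌋₊ + 1)).filter
        (fun N : ℕ => θ * x ≤ (N : ℝ) ∧ GoodH Q r al be F H N)).card : ℝ)

private lemma primorial_dvd (Q w : ℕ) : primorial w ∣ WR Q (primorial w) := by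
  unfold primorial
  apply Finset.prod_primes_dvd
  · intro p hp
    exact (mem_filter.1 hp).2.prime
  · intro p hp
    exact wr_dvd (primorial_pos w).ne' (mem_filter.1 hp).2 (dvd_prod_of_mem (fun p : ℕ => p) hp)

/-- classes prime to the larger modulus -/
private lemma exists_cl (Q D r : ℕ) (hr : Nat.Coprime r Q) :
    ∃ r' : ℕ, r' ≡ r [MOD Q] ∧ Nat.Coprime r' (WR Q D) := by
  have hcop := pdprod_cop Q D
  have h1 := (Nat.chineseRemainder hcop r 1).2
  refine ⟨(Nat.chineseRemainder hcop r 1 : ℕ), h1.1, ?_⟩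
  refine Nat.Coprime.mul_right ?_ ?_
  · have h2 : Nat.gcd r Q = 1 := hr
    have h3 := Nat.ModEq.gcd_eq h1.1
    rw [h2] at h3
    exact h3
  · show Nat.gcd _ _ = 1
    rw [Nat.ModEq.gcd_eq h1.2]
    exact Nat.gcd_one_left _

/-- from the positions to a good window -/
private lemma good_of_gdH {m s1 Q R F : ℕ} {ρ r : Fin m → ℕ} (hQR : Q ∣ R) {al be : Fin m → ℝ}
    (σ : Equiv.Perm (Fin m)) (hρ : ∀ d, ρ d ≡ r (σ d) [MOD Q]) {h : ℝ} {N : ℕ}
    (hN : GdH m s1 R ρ (fun d => al (σ d)) (fun d => be (σ d)) F h N) :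
    GoodH Q r al be F h N := by
  classical
  obtain ⟨hRN, u, hu, hpc, hpr⟩ := hN
  obtain ⟨-, -, hρu, hblk⟩ := mem_BXC.1 hu
  have hval : ∀ i : Fin (m * s1), finProdFinEquiv ((finProdFinEquiv.symm i).1, (finProdFinEquiv.symm i).2) = i :=
    fun i => Equiv.apply_symm_apply _ _
  refine ⟨?_, ?_⟩
  · intro y hy hp
    obtain ⟨i, hi⟩ := hpr y hy hp
    have h0 := hblk (finProdFinEquiv.symm i).1 (finProdFinEquiv.symm i).2
    rw [hval i, hi] at h0
    refine ⟨σ (finProdFinEquiv.symm i).1, h0.1, h0.2, ?_⟩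
    have h1 : y ≡ ρ (finProdFinEquiv.symm i).1 [MOD Q] := by
      rw [← hi]
      exact (hρu i).of_dvd hQR
    have h2 : N ≡ 0 [MOD Q] := (Nat.modEq_zero_iff_dvd.2 (hQR.trans hRN))
    have h3 := (h2.add h1).trans (by rw [Nat.zero_add])
    exact h3.trans (hρ _)
  · refine lt_of_lt_of_le hpc ?_
    unfold pc
    refine card_le_card_of_injOn σ ?_ (σ.injective.injOn)
    intro d hd
    obtain ⟨-, l, hl⟩ := mem_filter.1 (mem_coe.1 hd)
    have hbl := hblk d l
    exact mem_coe.2 (mem_filter.2 ⟨mem_univ _, u (finProdFinEquiv (d, l)), hbl.1, hbl.2, hl⟩)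

theorem thmH : ThmH := by
  classical
  intro m F hF
  have hm : 0 < m := by omega
  obtain ⟨s1, wd, κ, hs1, hG⟩ := good_countH m hm F hF
  refine ⟨m * s1 + κ, ?_⟩
  intro Q hQ
  have hR : 0 < WR Q (primorial wd) := wr_pos hQ _
  have hRw : primorial wd ∣ WR Q (primorial wd) := primorial_dvd Q wd
  have hQR : Q ∣ WR Q (primorial wd) := Dvd.intro _ rfl
  have hcl : ∀ r : ℕ, Nat.Coprime r Q → ∃ r' : ℕ, r' ≡ r [MOD Q] ∧ Nat.Coprime r' (WR Q (primorial wd)) :=
    fun r hr => exists_cl Q (primorial wd) r hr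
  generalize WR Q (primorial wd) = R at hR hRw hQR hcl
  have hσ : ∀ σ : Equiv.Perm (Fin m), ∃ lam0 δ θ T H0 : ℝ, 0 < lam0 ∧ lam0 ≤ 1 ∧ 0 < δ ∧ 0 < θ ∧ 1 ≤ T ∧
      1 ≤ H0 ∧ ∀ᶠ x : ℝ in atTop,
        ∀ (al be : Fin m → ℝ) (g H : ℝ), 0 < g → (∀ d, 0 < al d ∧ al d + g ≤ be d ∧ be d < 1) →
          (∀ d d', d < d' → be d < al d') → H ≤ lam0 * Real.log x → H0 ≤ g * H →
          H0 * Real.log H ^ κ ≤ g * H → ∀ ρ : Fin m → ℕ, (∀ d, Nat.Coprime (ρ d) R) →
            δ * (g * H / Real.log x) ^ (m * s1) * x ≤ (((Tx x).filter (fun N : ℕ => θ * x ≤ (N : ℝ) ∧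
              (N : ℝ) ≤ T * x ∧ GdH m s1 R ρ al be F H N)).card : ℝ) := by
    intro _
    obtain ⟨lam0, δ, θ, T, H0, h2, h3, h4, h5, h6, h7, h8⟩ := hG R hR hRw
    refine ⟨lam0, δ, θ, T, H0, h2, h3, h4, h5, h6, h7, ?_⟩
    filter_upwards [h8] with x hx al be g H a1 a2 a3 a4 a5 a6 ρ hρ
    refine (hx al be g H a1 a2 a3 a4 a5 a6 ρ hρ).trans (le_of_eq ?_)
    refine congrArg Nat.cast (congrArg Finset.card ?_)
    ext N
    simp only [Finset.mem_filter]
  choose lam0 δ θ T H0 hl0 hl1 hδ hθ hT hH0 hmain using hσ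
  have hne : (Finset.univ : Finset (Equiv.Perm (Fin m))).Nonempty := ⟨1, Finset.mem_univ _⟩
  refine ⟨Finset.univ.inf' hne lam0, Finset.univ.inf' hne δ, Finset.univ.inf' hne θ, Finset.univ.sup' hne T,
    max 3 (Finset.univ.sup' hne H0), (Finset.lt_inf'_iff _).2 fun σ _ => hl0 σ,
    (Finset.inf'_le lam0 (Finset.mem_univ (1 : Equiv.Perm (Fin m)))).trans (hl1 1),
    (Finset.lt_inf'_iff _).2 fun σ _ => hδ σ, (Finset.lt_inf'_iff _).2 fun σ _ => hθ σ,
    (hT 1).trans (Finset.le_sup' T (Finset.mem_univ 1)), (by norm_num : (1 : ℝ) ≤ 3).trans (le_max_left _ _), ?_⟩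
  filter_upwards [eventually_all.2 hmain, eventually_gt_atTop (1 : ℝ)] with x hx hx1 r hr al be g H hg hint hdisj
    hHle hHge hHge2
  have hx0 : 0 < x := by linarith
  have hlog : 0 < Real.log x := Real.log_pos hx1
  choose ρ hρ1 hρ2 using fun d => hcl (r d) (hr d)
  have hmono : Monotone (al ∘ Tuple.sort al) := Tuple.monotone_sort al
  generalize Tuple.sort al = σ at hmono
  have hint' : ∀ d, 0 < al d ∧ al d < be d ∧ be d < 1 := fun d => by
    obtain ⟨h1, h2, h3⟩ := hint d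
    exact ⟨h1, by linarith, h3⟩
  have hord : ∀ d d' : Fin m, d < d' → be (σ d) < al (σ d') := by
    intro d d' hdd
    have hne : σ d ≠ σ d' := fun h1 => hdd.ne (σ.injective h1)
    rcases hdisj _ _ hne with h1 | h1
    · exact h1
    · exfalso
      have h2 : al (σ d) ≤ al (σ d') := hmono hdd.le
      have h3 := (hint' (σ d')).2.1
      linarith
  -- sizes
  have h3gH : 3 ≤ g * H := (le_max_left _ _).trans hHge
  have hg1 : g ≤ 1 := by
    have h3 := hint ⟨0, hm⟩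
    linarith [h3.1, h3.2.1, h3.2.2]
  have hHpos : 0 < H := by
    by_contra hcon
    have := mul_nonpos_of_nonneg_of_nonpos hg.le (not_lt.1 hcon)
    linarith
  have hgHH : g * H ≤ H := by nlinarith
  have hlogH : 1 ≤ Real.log H := by
    rw [Real.le_log_iff_exp_le hHpos]
    linarith [Real.exp_one_lt_d9]
  have hHσ : H0 σ ≤ max 3 (Finset.univ.sup' hne H0) :=
    (Finset.le_sup' H0 (Finset.mem_univ σ)).trans (le_max_right _ _)
  have hq : H0 σ * Real.log H ^ κ ≤ g * H := by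
    have h1 : Real.log H ^ κ ≤ Real.log H ^ (m * s1 + κ) := pow_le_pow_right₀ hlogH (Nat.le_add_left _ _)
    have h2 : 0 ≤ Real.log H ^ κ := by positivity
    have h3 : 0 ≤ max 3 (Finset.univ.sup' hne H0) := (by norm_num : (0 : ℝ) ≤ 3).trans (le_max_left _ _)
    calc H0 σ * Real.log H ^ κ ≤ max 3 (Finset.univ.sup' hne H0) * Real.log H ^ κ :=
          mul_le_mul_of_nonneg_right hHσ h2
      _ ≤ max 3 (Finset.univ.sup' hne H0) * Real.log H ^ (m * s1 + κ) := mul_le_mul_of_nonneg_left h1 h3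
      _ ≤ g * H := hHge2
  have hlamle : Finset.univ.inf' hne lam0 ≤ lam0 σ := Finset.inf'_le lam0 (Finset.mem_univ σ)
  have hmn := hx σ (fun d => al (σ d)) (fun d => be (σ d)) g H hg (fun d => hint (σ d)) hord
    (hHle.trans (mul_le_mul_of_nonneg_right hlamle hlog.le)) (hHσ.trans hHge) hq
    (fun d => ρ (σ d)) (fun d => hρ2 _)
  have hfr : 0 ≤ g * H / Real.log x := by positivity
  have hfr1 : g * H / Real.log x ≤ 1 := by
    rw [div_le_one hlog]
    refine hgHH.trans (hHle.trans ?_)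
    have h1 := hlamle.trans (hl1 σ)
    nlinarith
  have hle : Finset.univ.inf' hne δ * (g * H / Real.log x) ^ (m * s1 + κ) * x ≤
      δ σ * (g * H / Real.log x) ^ (m * s1) * x := by
    refine mul_le_mul_of_nonneg_right ?_ hx0.le
    refine mul_le_mul (Finset.inf'_le δ (Finset.mem_univ σ)) (pow_le_pow_of_le_one hfr hfr1 (Nat.le_add_right _ _))
      (pow_nonneg hfr _) (hδ σ).le
  refine (hle.trans hmn).trans ?_
  refine Nat.cast_le.2 (Finset.card_le_card ?_)
  intro N hN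
  rw [Finset.mem_filter] at hN ⊢
  obtain ⟨-, h1, h2, h3⟩ := hN
  refine ⟨Finset.mem_range.2 (Nat.lt_succ_of_le (Nat.le_floor (h2.trans ?_))), ?_, ?_⟩
  · exact mul_le_mul_of_nonneg_right (Finset.le_sup' T (Finset.mem_univ σ)) hx0.le
  · exact (mul_le_mul_of_nonneg_right (Finset.inf'_le θ (Finset.mem_univ σ)) hx0.le).trans h1
  · exact good_of_gdH hQR σ (fun d => hρ1 (σ d)) h3

end Pool.Agent.H34.STH
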