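import Pool.Agent.H34.STH.Board
import Pool.Agent.H62.AU.Main

/-!
# [H34 STH MAIN] The board exists; the final theorem `strs`
-/

set_option autoImplicit false

namespace Pool.Agent.H34.STH

open Filter Finset Pool.Agent.H82.LS Pool.Agent.H62.AU

/-- the shift -/
private noncomputable def sh (a : Bool) (v : ℝ) : ℝ := if a then v else 0

private theorem sh_f (v : ℝ) : sh false v = 0 := rfl

private theorem sh_t (v : ℝ) : sh true v = v := rfl

/-- the index of a side -/
private def ix (a : Bool) : Fin 2 := if a then 1 else 0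

private theorem ix_f : ix false = 0 := rfl

private theorem ix_t : ix true = 1 := rfl

theorem boardH (K : ℕ) (hK : 1 ≤ K) : BoardH K := by
  classical
  intro e he
  obtain ⟨e1, he1d⟩ : ∃ e1 : ℝ, e1 = min e 1 := ⟨_, rfl⟩
  have he1 : 0 < e1 := by rw [he1d]; exact lt_min he one_pos
  have he11 : e1 ≤ 1 := by rw [he1d]; exact min_le_right _ _
  have he1e : e1 ≤ e := by rw [he1d]; exact min_le_left _ _
  have hKr : (1 : ℝ) ≤ K := by exact_mod_cast hK
  obtain ⟨c1, hc1d⟩ : ∃ c1 : ℝ, c1 = e1 / (800 * K) := ⟨_, rfl⟩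
  have hc1 : 0 < c1 := by rw [hc1d]; exact div_pos he1 (by linarith)
  have hc1K : 800 * K * c1 = e1 := by
    rw [hc1d]
    field_simp
  have hc11 : c1 ≤ 1 / 800 := by nlinarith
  refine ⟨c1, 16 / e1, hc1, by linarith, by rw [le_div_iff₀ he1]; linarith, ?_⟩
  intro L s hL hs Q hQ hQL hQQ w hw x hx u hu0 hu01 hu16
  have h16 : 16 * u 0 ≤ e1 * u 1 := by
    rw [div_mul_eq_mul_div, div_le_iff₀ he1] at hu01
    linarith
  have hu1 : 0 < u 1 := by
    by_contra hcon
    have : e1 * u 1 ≤ 0 := mul_nonpos_of_nonneg_of_nonpos he1.le (not_lt.1 hcon)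
    linarith
  have heu1 : e1 * u 1 ≤ u 1 := by nlinarith
  have heu0 : e1 * u 0 ≤ u 0 := by nlinarith
  have heu0' : 0 < e1 * u 0 := mul_pos he1 hu0
  have heu1' : 0 < e1 * u 1 := mul_pos he1 hu1
  -- the distances
  obtain ⟨v0, hv0⟩ : ∃ v0 : ℝ, v0 = (x 0 + e1 / 2) * u 0 := ⟨_, rfl⟩
  obtain ⟨v1, hv1⟩ : ∃ v1 : ℝ, v1 = (x 1 + e1 / 2) * u 1 := ⟨_, rfl⟩
  have hxu0 : 0 ≤ x 0 * u 0 ∧ x 0 * u 0 ≤ u 0 := ⟨mul_nonneg (hx 0).1 hu0.le, by nlinarith [(hx 0).2]⟩
  have hxu1 : 0 ≤ x 1 * u 1 ∧ x 1 * u 1 ≤ u 1 := ⟨mul_nonneg (hx 1).1 hu1.le, by nlinarith [(hx 1).2]⟩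
  have hv0' : v0 = x 0 * u 0 + e1 * u 0 / 2 := by rw [hv0]; ring
  have hv1' : v1 = x 1 * u 1 + e1 * u 1 / 2 := by rw [hv1]; ring
  obtain ⟨c, hcd⟩ : ∃ c, c = c1 * u 0 := ⟨_, rfl⟩
  have hc0 : 0 < c := by rw [hcd]; exact mul_pos hc1 hu0
  have hcu : c ≤ u 0 / 800 := by
    rw [hcd]
    nlinarith
  obtain ⟨W, hWd⟩ : ∃ W : ℝ, W = e1 * u 0 / 8 := ⟨_, rfl⟩
  have hW : 100 * K * c = W := by
    rw [hWd, hcd, ← hc1K]
    ring
  have hW0 : 0 < W := by rw [hWd]; linarith
  have hWv : W < v0 := by rw [hWd, hv0']; linarith [hxu0.1]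
  have hW1 : v0 + W < v1 := by
    rw [hv0', hv1', hWd]
    linarith [hxu0.2, hxu1.1]
  have hone : c + v1 + v0 + W < 1 := by
    rw [hv0', hv1', hWd]
    linarith [hxu0.2, hxu1.2]
  have hv00 : 0 < v0 := by linarith
  have hv10 : 0 < v1 := by linarith
  -- the coordinates
  obtain ⟨f, -⟩ : ∃ _f : Bool × Bool × Fin (50 * K) ≃ Fin (200 * K), True :=
    ⟨Fintype.equivFinOfCardEq (by
      rw [Fintype.card_prod, Fintype.card_prod, Fintype.card_bool, Fintype.card_fin]
      ring), trivial⟩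
  obtain ⟨P, hP⟩ : ∃ P : Bool → Bool → ℝ, P = fun a b => c + sh a v1 + sh b v0 := ⟨_, rfl⟩
  obtain ⟨lo, hlo⟩ : ∃ lo : Bool × Bool × Fin (50 * K) → ℝ,
    lo = fun q => P q.1 q.2.1 + 2 * (q.2.2 : ℕ) * c := ⟨_, rfl⟩
  have hlo1 : ∀ q, P q.1 q.2.1 ≤ lo q := fun q => by
    rw [hlo]
    have : (0 : ℝ) ≤ 2 * ((q.2.2 : ℕ) : ℝ) * c := by positivity
    linarith
  have hhi1 : ∀ q, lo q + c ≤ P q.1 q.2.1 + W := fun q => by
    rw [hlo, ← hW]
    have h1 : ((q.2.2 : ℕ) : ℝ) + 1 ≤ 50 * K := by exact_mod_cast q.2.2.2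
    have h2 : (2 * ((q.2.2 : ℕ) : ℝ) + 1) * c ≤ 100 * K * c := mul_le_mul_of_nonneg_right (by linarith) hc0.le
    show P q.1 q.2.1 + 2 * ((q.2.2 : ℕ) : ℝ) * c + c ≤ _
    linarith
  have hP0 : ∀ a b, c ≤ P a b := by
    intro a b
    rw [hP]
    cases a <;> cases b <;> simp only [sh_f, sh_t] <;> linarith
  have hPle : ∀ a b, P a b + W < 1 := by
    intro a b
    rw [hP]
    cases a <;> cases b <;> simp only [sh_f, sh_t] <;> linarith
  have hPtop : ∀ b, P false b + W ≤ c + (v0 + W) := by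
    intro b
    rw [hP]
    cases b <;> simp only [sh_f, sh_t] <;> linarith
  have hPtop1 : ∀ b, P true b + W ≤ c + v1 + (v0 + W) := by
    intro b
    rw [hP]
    cases b <;> simp only [sh_f, sh_t] <;> linarith
  have hPbot : ∀ b, c + v1 ≤ P true b := by
    intro b
    rw [hP]
    cases b <;> simp only [sh_f, sh_t] <;> linarith
  have hPa : ∀ a b b', b = false → b' = true → P a b' = P a b + v0 := by
    intro a b b' hb hb'
    rw [hP, hb, hb']
    simp only [sh_f, sh_t]
    ring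
  have hlt : ∀ q q' : Bool × Bool × Fin (50 * K), ((q.1 = false ∧ q'.1 = true) ∨
      (q.1 = q'.1 ∧ q.2.1 = false ∧ q'.2.1 = true) ∨ (q.1 = q'.1 ∧ q.2.1 = q'.2.1 ∧ q.2.2 < q'.2.2)) →
      lo q + c < lo q' := by
    rintro q q' (⟨h1, h2⟩ | ⟨h1, h2, h3⟩ | ⟨h1, h2, h3⟩)
    · have a1 := hhi1 q
      have a2 := hlo1 q'
      have a3 := hPtop q.2.1
      have a4 := hPbot q'.2.1
      rw [h1] at a1
      rw [h2] at a2
      linarith
    · have a1 := hhi1 q
      have a2 := hlo1 q'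
      have a3 := hPa q.1 q.2.1 q'.2.1 h2 h3
      rw [← h1] at a2
      linarith
    · rw [hlo]
      show P q.1 q.2.1 + 2 * ((q.2.2 : ℕ) : ℝ) * c + c < P q'.1 q'.2.1 + 2 * ((q'.2.2 : ℕ) : ℝ) * c
      rw [h1, h2]
      have h4 : ((q.2.2 : ℕ) : ℝ) + 1 ≤ ((q'.2.2 : ℕ) : ℝ) := by exact_mod_cast h3
      have h5 : (2 * ((q.2.2 : ℕ) : ℝ) + 2) * c ≤ 2 * ((q'.2.2 : ℕ) : ℝ) * c :=
        mul_le_mul_of_nonneg_right (by linarith) hc0.le
      linarith
  have hdis : ∀ q q' : Bool × Bool × Fin (50 * K), q ≠ q' → lo q + c < lo q' ∨ lo q' + c < lo q := by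
    rintro ⟨a, b, l⟩ ⟨a', b', l'⟩ hne
    by_cases h1 : a = a'
    · by_cases h2 : b = b'
      · have h3 : l ≠ l' := fun h3 => hne (by rw [h1, h2, h3])
        rcases lt_or_gt_of_ne h3 with h4 | h4
        · exact Or.inl (hlt _ _ (Or.inr (Or.inr ⟨h1, h2, h4⟩)))
        · exact Or.inr (hlt _ _ (Or.inr (Or.inr ⟨h1.symm, h2.symm, h4⟩)))
      · cases b <;> cases b'
        · exact absurd rfl h2
        · exact Or.inl (hlt _ _ (Or.inr (Or.inl ⟨h1, rfl, rfl⟩)))
        · exact Or.inr (hlt _ _ (Or.inr (Or.inl ⟨h1.symm, rfl, rfl⟩)))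
        · exact absurd rfl h2
    · cases a <;> cases a'
      · exact absurd rfl h1
      · exact Or.inl (hlt _ _ (Or.inl ⟨rfl, rfl⟩))
      · exact Or.inr (hlt _ _ (Or.inl ⟨rfl, rfl⟩))
      · exact absurd rfl h1
  -- the classes
  have hR := fun a b : Bool => exists_r hs hQL hQQ (w 0 (ix b)) (w 1 (ix a)) (hw 0 _) (hw 1 _)
  choose R hR1 hR2 hR3 hR4 using hR
  obtain ⟨al, hal⟩ : ∃ al : Fin (200 * K) → ℝ, al = fun d => lo (f.symm d) := ⟨_, rfl⟩
  obtain ⟨be, hbe⟩ : ∃ be : Fin (200 * K) → ℝ, be = fun d => lo (f.symm d) + c := ⟨_, rfl⟩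
  have hdisj : ∀ d d', d ≠ d' → be d < al d' ∨ be d' < al d := by
    intro d d' hne
    rw [hal, hbe]
    exact hdis _ _ fun h => hne (f.symm.injective h)
  refine ⟨al, be, fun d => R (f.symm d).1 (f.symm d).2.1, fun d => hR1 _ _, ?_, hdisj, ?_⟩
  · intro d
    rw [hal, hbe]
    have a1 := hlo1 (f.symm d)
    have a2 := hhi1 (f.symm d)
    have a3 := hP0 (f.symm d).1 (f.symm d).2.1
    have a4 := hPle (f.symm d).1 (f.symm d).2.1
    refine ⟨by linarith, ?_, by linarith⟩
    rw [← hcd]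
  intro H N hH hG
  obtain ⟨hcls, hcard⟩ := hG
  have hN0 : (0 : ℝ) ≤ N := Nat.cast_nonneg N
  -- the primes of the window
  have hpr : ∀ p : ℕ, p.Prime → (N : ℝ) ≤ p → (p : ℝ) ≤ N + H → ∃ q : Bool × Bool × Fin (50 * K),
      N + lo q * H ≤ p ∧ (p : ℝ) ≤ N + (lo q + c) * H ∧ p ≡ s [MOD L] ∧ p ≡ w 0 (ix q.2.1) [MOD Q 0] ∧
        p ≡ w 1 (ix q.1) [MOD Q 1] := by
    intro p hp h1 h2
    obtain ⟨y, rfl⟩ : ∃ y, p = N + y := ⟨p - N, by
      have : N ≤ p := by exact_mod_cast h1
      omega⟩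
    push_cast at h2 ⊢
    obtain ⟨d, h3, h4, h5⟩ := hcls y (by linarith) hp
    rw [hal] at h3
    rw [hbe] at h4
    have d1 : L ∣ L * (Q 0 * Q 1) := Dvd.intro _ rfl
    have d2 : Q 0 ∣ L * (Q 0 * Q 1) := (Dvd.intro _ rfl : Q 0 ∣ Q 0 * Q 1).trans (Dvd.intro_left _ rfl)
    have d3 : Q 1 ∣ L * (Q 0 * Q 1) := (Dvd.intro_left _ rfl : Q 1 ∣ Q 0 * Q 1).trans (Dvd.intro_left _ rfl)
    exact ⟨f.symm d, by linarith, by linarith, (h5.of_dvd d1).trans (hR2 _ _), (h5.of_dvd d2).trans (hR3 _ _),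
      (h5.of_dvd d3).trans (hR4 _ _)⟩
  -- the sets of hit intervals
  obtain ⟨hit, hhit⟩ : ∃ hit : Fin (200 * K) → Prop,
    hit = fun d => ∃ y : ℕ, al d * H ≤ (y : ℝ) ∧ (y : ℝ) ≤ be d * H ∧ (N + y).Prime := ⟨_, rfl⟩
  obtain ⟨E, hE⟩ : ∃ E : Finset (Fin (200 * K)), E = univ.filter hit := ⟨_, rfl⟩
  have hEc : 52 * K - 2 < E.card := by
    refine hcard.trans_le (le_of_eq ?_)
    rw [hE, hhit]
  obtain ⟨D1, hD1⟩ : ∃ D1 : Bool → Finset (Fin (200 * K)), D1 = fun a => E.filter (fun d => (f.symm d).1 = a) :=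
    ⟨_, rfl⟩
  obtain ⟨D0, hD0⟩ : ∃ D0 : Bool → Bool → Finset (Fin (200 * K)),
    D0 = fun a b => (D1 a).filter (fun d => (f.symm d).2.1 = b) := ⟨_, rfl⟩
  have m1 : ∀ a d, d ∈ D1 a ↔ hit d ∧ (f.symm d).1 = a := fun a d => by
    rw [hD1]
    show d ∈ E.filter (fun d => (f.symm d).1 = a) ↔ _
    rw [mem_filter, hE, mem_filter]
    exact ⟨fun h => ⟨h.1.2, h.2⟩, fun h => ⟨⟨mem_univ _, h.1⟩, h.2⟩⟩
  have m0 : ∀ a b d, d ∈ D0 a b ↔ hit d ∧ (f.symm d).1 = a ∧ (f.symm d).2.1 = b := fun a b d => by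
    rw [hD0]
    show d ∈ (D1 a).filter (fun d => (f.symm d).2.1 = b) ↔ _
    rw [mem_filter, m1]
    exact ⟨fun h => ⟨h.1.1, h.1.2, h.2⟩, fun h => ⟨⟨h.1, h.2.1⟩, h.2.2⟩⟩
  have k1 : E.card ≤ (D1 false).card + (D1 true).card := by
    refine (card_le_card (t := D1 false ∪ D1 true) fun d hd => ?_).trans (card_union_le _ _)
    rw [mem_union, m1, m1]
    have hd' : hit d := by
      rw [hE, mem_filter] at hd
      exact hd.2
    rcases Bool.eq_false_or_eq_true (f.symm d).1 with h | h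
    · exact Or.inr ⟨hd', h⟩
    · exact Or.inl ⟨hd', h⟩
  have k0 : ∀ a, (D1 a).card ≤ (D0 a false).card + (D0 a true).card := fun a => by
    refine (card_le_card (t := D0 a false ∪ D0 a true) fun d hd => ?_).trans (card_union_le _ _)
    rw [m1] at hd
    rw [mem_union, m0, m0]
    rcases Bool.eq_false_or_eq_true (f.symm d).2.1 with h | h
    · exact Or.inr ⟨hd.1, hd.2, h⟩
    · exact Or.inl ⟨hd.1, hd.2, h⟩
  have kle : ∀ a b, (D0 a b).card ≤ 50 * K := fun a b => by
    have h1 : (D0 a b).card ≤ (univ : Finset (Fin (50 * K))).card := by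
      refine card_le_card_of_injOn (fun d => (f.symm d).2.2) (fun _ _ => mem_coe.2 (mem_univ _)) ?_
      intro d hd d' hd' hdd
      have h2 := (m0 a b d).1 (mem_coe.1 hd)
      have h3 := (m0 a b d').1 (mem_coe.1 hd')
      apply f.symm.injective
      refine Prod.ext (h2.2.1.trans h3.2.1.symm) (Prod.ext (h2.2.2.trans h3.2.2.symm) hdd)
    rwa [card_univ, Fintype.card_fin] at h1
  have hmulH : ∀ {a b : ℝ}, a ≤ b → a * H ≤ b * H := fun h => mul_le_mul_of_nonneg_right h hH.le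
  have hmulH' : ∀ {a b : ℝ}, a < b → a * H < b * H := fun h => mul_lt_mul_of_pos_right h hH
  by_cases hbig : K ≤ (D1 false).card ∧ K ≤ (D1 true).card
  · -- the upper scale
    obtain ⟨S0, hS0, hS0'⟩ := primes_of_hits (N := N) hH hdisj (D1 false) (fun d hd => by
      have := ((m1 _ _).1 hd).1
      rwa [hhit] at this)
    obtain ⟨S1, hS1, hS1'⟩ := primes_of_hits (N := N) hH hdisj (D1 true) (fun d hd => by
      have := ((m1 _ _).1 hd).1
      rwa [hhit] at this)
    have g1 := hmulH' hW1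
    have g2 := hmulH' hone
    have g3 := hmulH hc0.le
    have g4 := hmulH (add_pos hv00 hW0).le
    obtain ⟨n, hn1, hn2, hn3⟩ := pat_of (K := K) (L := L) (s := s) (Q := Q 1) (w0 := w 1 0) (w1 := w 1 1) (N := N)
      (x := x 1) (z := u 1 * H) (e := e) (A := c * H) (W := (v0 + W) * H) (v := v1 * H) hK (by linarith)
      (by linarith) g1 (by
        have h1 : v1 * H - x 1 * (u 1 * H) = e1 * u 1 / 2 * H := by rw [hv1']; ring
        rw [h1, abs_of_pos (by positivity), ← add_mul, ← mul_assoc]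
        refine hmulH' ?_
        have h2 : e1 * u 1 ≤ e * u 1 := mul_le_mul_of_nonneg_right he1e hu1.le
        rw [hv0', hWd]
        linarith [hxu0.2])
      (by
        intro p hp h1 h2
        have h3 : (c + v1 + (v0 + W)) * H ≤ 1 * H := hmulH (by linarith)
        obtain ⟨q, q1, q2, q3, q4, q5⟩ := hpr p hp (by linarith) (by
          rw [add_mul, add_mul] at h3
          linarith)
        rcases Bool.eq_false_or_eq_true q.1 with h | h
        · right
          rw [h, ix_t] at q5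
          have b1 := hlo1 q
          rw [h] at b1
          have b2 := hmulH ((hPbot q.2.1).trans b1)
          rw [add_mul] at b2
          exact ⟨by linarith, q3, q5⟩
        · left
          rw [h, ix_f] at q5
          have b1 := hhi1 q
          rw [h] at b1
          have b2 := hmulH (b1.trans (hPtop q.2.1))
          rw [add_mul c] at b2
          exact ⟨by linarith, q3, q5⟩)
      S0 S1 (by omega) (by omega)
      (by
        intro p hp
        obtain ⟨h1, d, hd, h2, h3⟩ := hS0' p hp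
        rw [hal] at h2
        rw [hbe] at h3
        have hda := ((m1 _ _).1 hd).2
        have b1 := hhi1 (f.symm d)
        have b0 := hlo1 (f.symm d)
        rw [hda] at b1 b0
        have b2 := hmulH (b1.trans (hPtop _))
        have b3 := hmulH ((hP0 _ _).trans b0)
        rw [add_mul c] at b2
        exact ⟨h1, by linarith, by linarith⟩)
      (by
        intro p hp
        obtain ⟨h1, d, hd, h2, h3⟩ := hS1' p hp
        rw [hal] at h2
        rw [hbe] at h3
        have hda := ((m1 _ _).1 hd).2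
        have b1 := hhi1 (f.symm d)
        have b0 := hlo1 (f.symm d)
        rw [hda] at b1 b0
        have b2 := hmulH (b1.trans (hPtop1 _))
        have b3 := hmulH ((hPbot _).trans b0)
        rw [add_mul (c + v1), add_mul c] at b2
        rw [add_mul] at b3
        exact ⟨h1, by linarith, by linarith⟩)
    refine ⟨1, n, ?_, ?_, hn3⟩
    · have : (N : ℝ) ≤ (Nat.nth Nat.Prime n : ℝ) := by linarith
      exact_mod_cast this
    · have h3 : (c + (v0 + W)) * H ≤ 1 * H := hmulH (by linarith)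
      rw [add_mul c] at h3
      linarith
  · -- the lower scale
    obtain ⟨a, ha⟩ : ∃ a, 51 * K ≤ (D1 a).card := by
      by_cases h : K ≤ (D1 false).card
      · exact ⟨false, by omega⟩
      · exact ⟨true, by omega⟩
    have kf : K ≤ (D0 a false).card := by
      have := k0 a
      have := kle a true
      omega
    have kt : K ≤ (D0 a true).card := by
      have := k0 a
      have := kle a false
      omega
    obtain ⟨S0, hS0, hS0'⟩ := primes_of_hits (N := N) hH hdisj (D0 a false) (fun d hd => by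
      have := ((m0 _ _ _).1 hd).1
      rwa [hhit] at this)
    obtain ⟨S1, hS1, hS1'⟩ := primes_of_hits (N := N) hH hdisj (D0 a true) (fun d hd => by
      have := ((m0 _ _ _).1 hd).1
      rwa [hhit] at this)
    obtain ⟨A, hA⟩ : ∃ A, A = P a false := ⟨_, rfl⟩
    have hAt : P a true = A + v0 := by rw [hA]; exact hPa a false true rfl rfl
    have hA0 : c ≤ A := hA ▸ hP0 a false
    have hA1 : A + v0 + W < 1 := by rw [← hAt]; exact hPle a true
    have g0 := hmulH hA0
    have g1 := hmulH' hWv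
    have g2 := hmulH' hc0
    have g3 := hmulH' hW0
    obtain ⟨n, hn1, hn2, hn3⟩ := pat_of (K := K) (L := L) (s := s) (Q := Q 0) (w0 := w 0 0) (w1 := w 0 1) (N := N)
      (x := x 0) (z := u 0 * H) (e := e) (A := A * H) (W := W * H) (v := v0 * H) hK (by linarith)
      (by linarith) g1 (by
        have h1 : v0 * H - x 0 * (u 0 * H) = e1 * u 0 / 2 * H := by rw [hv0']; ring
        rw [h1, abs_of_pos (by positivity), ← add_mul, ← mul_assoc]
        refine hmulH' ?_
        have h2 : e1 * u 0 ≤ e * u 0 := mul_le_mul_of_nonneg_right he1e hu0.le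
        rw [hWd]
        linarith)
      (by
        intro p hp h1 h2
        have h3 : (A + v0 + W) * H ≤ 1 * H := hmulH hA1.le
        rw [add_mul, add_mul] at h3
        obtain ⟨q, q1, q2, q3, q4, q5⟩ := hpr p hp (by linarith) (by linarith)
        have hqa : q.1 = a := by
          by_contra hne
          have b1 := hmulH (hhi1 q)
          have b2 := hmulH (hlo1 q)
          cases a
          · have h4 : q.1 = true := by
              rcases Bool.eq_false_or_eq_true q.1 with h | h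
              · exact h
              · exact absurd h hne
            rw [h4] at b2
            have b3 := hPtop true
            rw [hAt] at b3
            have b4 := hmulH' (show A + v0 + W < P true q.2.1 by linarith [hPbot q.2.1])
            rw [add_mul, add_mul] at b4
            linarith
          · have h4 : q.1 = false := by
              rcases Bool.eq_false_or_eq_true q.1 with h | h
              · exact absurd h hne
              · exact h
            rw [h4] at b1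
            have b4 := hmulH' (show P false q.2.1 + W < A by
              rw [hA]
              linarith [hPtop q.2.1, hPbot false])
            linarith
        have b1 := hmulH (hhi1 q)
        have b0 := hmulH (hlo1 q)
        rw [hqa] at b0 b1
        rcases Bool.eq_false_or_eq_true q.2.1 with h | h
        · right
          rw [h, ix_t] at q4
          rw [h, hAt, add_mul] at b0
          exact ⟨by linarith, q3, q4⟩
        · left
          rw [h, ix_f] at q4
          rw [h, ← hA, add_mul _ _ H, add_mul _ _ H] at b1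
          rw [add_mul] at q2
          exact ⟨by linarith, q3, q4⟩)
      S0 S1 (by omega) (by omega)
      (by
        intro p hp
        obtain ⟨h1, d, hd, h2, h3⟩ := hS0' p hp
        rw [hal] at h2
        rw [hbe] at h3
        obtain ⟨-, hda, hdb⟩ := (m0 _ _ _).1 hd
        have b1 := hmulH (hhi1 (f.symm d))
        have b0 := hmulH (hlo1 (f.symm d))
        rw [hda, hdb, ← hA] at b1 b0
        rw [add_mul A] at b1
        exact ⟨h1, by linarith, by linarith⟩)
      (by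
        intro p hp
        obtain ⟨h1, d, hd, h2, h3⟩ := hS1' p hp
        rw [hal] at h2
        rw [hbe] at h3
        obtain ⟨-, hda, hdb⟩ := (m0 _ _ _).1 hd
        have b1 := hmulH (hhi1 (f.symm d))
        have b0 := hmulH (hlo1 (f.symm d))
        rw [hda, hdb, hAt] at b1 b0
        rw [add_mul (A + v0), add_mul A] at b1
        rw [add_mul] at b0
        exact ⟨h1, by linarith, by linarith⟩)
    have h3 : (A + v0 + W) * H ≤ 1 * H := hmulH hA1.le
    rw [add_mul, add_mul] at h3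
    have h4 := hmulH' hv00
    refine ⟨0, n, ?_, by linarith, hn3⟩
    have : (N : ℝ) ≤ (Nat.nth Nat.Prime n : ℝ) := by linarith
    exact_mod_cast this

/-- **One gap between strings of `K` primes, at one of two separated scales** -/
theorem strs (K : ℕ) (hK : 1 ≤ K) : ∃ D : ℕ, ∀ L s : ℕ, 0 < L → Nat.Coprime s L → ∀ Q : Fin 2 → ℕ, (∀ i, 0 < Q i) →
    (∀ i, Nat.Coprime (Q i) L) → (∀ i j, i ≠ j → Nat.Coprime (Q i) (Q j)) →
    ∀ e : ℝ, 0 < e → ∃ C d B : ℝ, 1 ≤ C ∧ 0 < d ∧
      ∀ (M : ℕ) (τ : ℝ) (t : Fin 2 → ℝ), ChainU C B D M τ t →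
        ∃ i, ∀ w : Fin 2 → ℕ, (∀ j, Nat.Coprime (w j) (Q i)) → ∀ u : ℝ, 0 ≤ u → u ≤ 1 →
          d * τ ^ D * M ≤ (({n : ℕ | n < M ∧
            |(gap n : ℝ) - u * (t i * Real.log (Nat.nth Nat.Prime n))| < e * (t i * Real.log (Nat.nth Nat.Prime n)) ∧
            K ≤ n + 1 ∧ ∀ j < K,
              (Nat.nth Nat.Prime (n - j) ≡ s [MOD L] ∧ Nat.nth Nat.Prime (n - j) ≡ w 0 [MOD Q i]) ∧
              (Nat.nth Nat.Prime (n + 1 + j) ≡ s [MOD L] ∧ Nat.nth Nat.Prime (n + 1 + j) ≡ w 1 [MOD Q i]) ∧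
              (Nat.nth Nat.Prime n : ℝ) - Nat.nth Nat.Prime (n - j) <
                e * (t i * Real.log (Nat.nth Nat.Prime n)) ∧
              (Nat.nth Nat.Prime (n + 1 + j) : ℝ) - Nat.nth Nat.Prime (n + 1) <
                e * (t i * Real.log (Nat.nth Nat.Prime n))}).ncard : ℝ) :=
  strs_of K hK (boardH K hK) thmH winU

end Pool.Agent.H34.STH
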